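import Pool.Agent.PQP.StmtsE
import Pool.Agent.Helper59_PQP.HES

/-!
# PQP, row HSW (from HES)
-/

set_option autoImplicit false

noncomputable section

namespace Pool.Agent.PQP.H48

open Pool.Agent.Helper42_Paneitz Pool.Agent.Helper82_Vir Pool.Agent.FLX

theorem hsw : HswStmt := fun ψ x hψ =>
  ⟨fun v => (H59.hes ψ hψ x v).1, (H59.hes ψ hψ x 0).2.2.2.symm⟩

end Pool.Agent.PQP.H48
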